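import Pool.Agent.H37.PV.Defs

/-!
PW: the proof of PowerSaving (PPC, PPD, PPE, H49/PPR) with `order` replaced by Mann's test `MG`.  The quadratic test.
-/

set_option autoImplicit false

namespace Pool.Agent.H37.PW

open Finset Pool.Agent.H37.PPC Pool.Agent.H37.PV

theorem planar_test (n p q : ℕ) (_hn : 2 ≤ n) (hO : MG n) (_hsq : ¬ IsSquare n)
    (hp : p.Prime) (hpn : p ∣ n) (hq : q.Prime) (hqv : q ∣ n ^ 2 + n + 1) :
    jacobiSym (p : ℤ) q ≠ -1 := by
  intro hj
  haveI : Fact q.Prime := ⟨hq⟩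
  have hleg : legendreSym q (p : ℤ) = -1 := by
    rw [jacobiSym.legendreSym.to_jacobiSym, hj]
  have hpow := legendreSym.eq_pow q (p : ℤ)
  rw [hleg] at hpow
  push_cast at hpow
  exact hO p q hp hpn hq hqv (q / 2) hpow.symm

end Pool.Agent.H37.PW
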