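import Pool.Agent.H37.PPC.CC
import Pool.Agent.H37.PW.Base

/-!
PPC CC: the number of good n with a given chain.
-/

set_option autoImplicit false

namespace Pool.Agent.H37.PW

open Finset Pool.Agent.H37.PPC Pool.Agent.H37.PV

/-- non-square orders -/
def Good (n : ℕ) : Prop := 2 ≤ n ∧ MG n ∧ ¬ IsSquare n

/-- a good number and a test prime -/
theorem Good.test {n p q : ℕ} (hn : Good n) (hp : p.Prime) (hpn : p ∣ n) (hq : q.Prime)
    (hj : jacobiSym (p : ℤ) q = -1) : ¬ q ∣ n ^ 2 + n + 1 := fun h =>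
  planar_test n p q hn.1 hn.2.1 hn.2.2 hp hpn hq h hj

theorem not_dvd_prod {c : List ℕ} (hc : ∀ p ∈ c, p.Prime) {q : ℕ} (hq : q.Prime) (hqc : q ∉ c) :
    ¬ q ∣ c.prod := by
  intro h
  rw [Prime.dvd_prod_iff hq.prime] at h
  obtain ⟨a, ha, hqa⟩ := h
  have := (Nat.prime_dvd_prime_iff_eq hq (hc a ha)).1 hqa
  exact hqc (this ▸ ha)

/-- general count for a chain, with extra sieving primes -/
theorem count_gen : ∃ K : ℝ, 0 < K ∧ ∃ s : ℕ, 0 < s ∧ ∀ x y : ℕ, 2 ≤ y → y ^ (s + 2) ≤ x →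
    ∀ (j p : ℕ) (c : List ℕ), p :: c ∈ CHb (j + 1) y → ∀ A B : Finset ℕ,
    A ⊆ pr (p ^ 2) (y + 1) → B ⊆ pr (zz p) (y + 1) →
    (∀ q ∈ B, q % 3 = 1 ∧ ∃ l ∈ p :: c, jacobiSym (l : ℤ) q = -1) →
    ∀ S : Finset ℕ, (∀ n ∈ S, 1 ≤ n ∧ n ≤ x ∧ Good n ∧ Gd (p :: c) n ∧ ∀ l ∈ A, ¬ l ∣ n) →
    (S.card : ℝ) ≤ K * x * vv (p :: c) *
      Real.exp (-(∑ l ∈ A, (1 : ℝ) / l + 2 * ∑ q ∈ B, (1 : ℝ) / q)) := by
  obtain ⟨K, hK, s, hs, h⟩ := sieve_apply
  refine ⟨K, hK, s, hs, ?_⟩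
  intro x y hy hyx j p c hc A B hA hB hBp S hS
  obtain ⟨hc1, hc2, hp, hpy⟩ := CHb_self hc
  have hf := CHb_facts _ _ _ hc
  have hf1 := CHb_facts _ _ _ hc1
  have hp2 := hp.two_le
  have hzz := lt_zz p (by omega)
  have hpp : p < p ^ 2 := by nlinarith
  have hprod : (p :: c).prod ≤ y ^ 2 := hf.2.2.2.2 (by omega)
  have hm1 : 1 ≤ (p :: c).prod := hf.2.2.2.1
  have hm : (p :: c).prod * y ^ s ≤ x := by
    calc (p :: c).prod * y ^ s ≤ y ^ 2 * y ^ s := Nat.mul_le_mul_right _ hprod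
      _ = y ^ (s + 2) := by ring
      _ ≤ x := hyx
  have h0 : Z0 (p :: c) ⊆ pr 2 (y + 1) := Z0_sub _ _ _ hc
  have hq : Zq (p :: c) ⊆ pr 2 (y + 1) := Zq_sub _ _ _ hc
  have h01 : Z0 (p :: c) ⊆ pr 2 (p + 1) := Z0_sub _ _ _ hc1
  have hq1 : Zq (p :: c) ⊆ pr 2 (p + 1) := Zq_sub _ _ _ hc1
  have d1 : Disjoint (Z0 (p :: c)) A := by
    rw [disjoint_left]
    intro l hl hl'
    have a1 := mem_pr.1 (h01 hl)
    have a2 := mem_pr.1 (hA hl')
    omega
  have d2 : Disjoint (Zq (p :: c)) B := by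
    rw [disjoint_left]
    intro l hl hl'
    have a1 := mem_pr.1 (hq1 hl)
    have a2 := mem_pr.1 (hB hl')
    omega
  have hmain := h x y (p :: c).prod hy hm1 hm (Z0 (p :: c) ∪ A) (Zq (p :: c) ∪ B) ?_ ?_ ?_ S ?_
  · rw [sum_union d1, sum_union d2] at hmain
    refine hmain.trans (le_of_eq ?_)
    have e : -(∑ l ∈ Z0 (p :: c), (1 : ℝ) / l + ∑ l ∈ A, (1 : ℝ) / l)
        - 2 * (∑ q ∈ Zq (p :: c), (1 : ℝ) / q + ∑ q ∈ B, (1 : ℝ) / q)
        = -EE (p :: c) + -(∑ l ∈ A, (1 : ℝ) / l + 2 * ∑ q ∈ B, (1 : ℝ) / q) := by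
      unfold EE; ring
    rw [e, Real.exp_add]
    unfold vv
    ring
  · apply union_subset h0
    intro l hl
    have a := mem_pr.1 (hA hl)
    rw [mem_pr]
    exact ⟨⟨by omega, a.1.2⟩, a.2⟩
  · apply union_subset hq
    intro l hl
    have a := mem_pr.1 (hB hl)
    rw [mem_pr]
    exact ⟨⟨by omega, a.1.2⟩, a.2⟩
  · intro q hq'
    rw [mem_union] at hq'
    rcases hq' with hq' | hq'
    · obtain ⟨b1, b2, -⟩ := Zq_prop _ _ _ hc q hq'
      exact ⟨b1, not_dvd_prod (fun l hl => (hf.2.1 l hl).1) (mem_pr.1 (hq hq')).2 b2⟩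
    · have a := mem_pr.1 (hB hq')
      refine ⟨(hBp q hq').1, not_dvd_prod (fun l hl => (hf.2.1 l hl).1) a.2 ?_⟩
      intro hmem
      have := (hf1.2.1 q hmem).2
      omega
  · intro n hn
    obtain ⟨n1, n2, n3, n4, n5⟩ := hS n hn
    refine ⟨n1, n2, Gd_prod _ _ _ _ hc n4, ?_, ?_⟩
    · intro l hl
      rw [mem_union] at hl
      rcases hl with hl | hl
      · exact Gd_Z0 _ _ n4 l hl
      · exact n5 l hl
    · intro q hq'
      rw [mem_union] at hq'
      rcases hq' with hq' | hq'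
      · obtain ⟨b1, b2, l, hl, hj⟩ := Zq_prop _ _ _ hc q hq'
        exact n3.test (hf.2.1 l hl).1 (Gd_dvd _ _ n4 l hl) (mem_pr.1 (hq hq')).2 hj
      · obtain ⟨b1, l, hl, hj⟩ := hBp q hq'
        exact n3.test (hf.2.1 l hl).1 (Gd_dvd _ _ n4 l hl) (mem_pr.1 (hB hq')).2 hj

theorem log_pow_half {t : ℝ} (ht : 0 < t) :
    t * Real.sqrt t = Real.exp ((3 / 2) * Real.log t) := by
  rw [Real.sqrt_eq_rpow, ← Real.rpow_one_add' ht.le (by norm_num), Real.rpow_def_of_pos ht]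
  congr 1
  ring

theorem caseII : ∃ K : ℝ, 0 < K ∧ ∃ s : ℕ, 0 < s ∧ ∀ x y : ℕ, 2 ≤ y → y ^ (s + 2) ≤ x →
    ∀ (j p : ℕ) (c : List ℕ), p :: c ∈ CHb (j + 1) y →
    ∀ S : Finset ℕ, (∀ n ∈ S, 1 ≤ n ∧ n ≤ x ∧ Good n ∧ Gd (p :: c) n ∧
      ∀ l ∈ pr (p ^ 2) (y + 1), ¬ l ∣ n) →
    (S.card : ℝ) ≤ K * x * vv (p :: c) *
      (Real.log p * Real.sqrt (Real.log p) / (Real.log y * Real.sqrt (Real.log y))) := by
  obtain ⟨K, hK, s, hs, h⟩ := count_gen
  obtain ⟨K1, hK1, hST⟩ := ST_lower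
  refine ⟨K * Real.exp K1, by positivity, s, hs, ?_⟩
  intro x y hy hyx j p c hc S hS
  obtain ⟨hc1, hc2, hp, hpy⟩ := CHb_self hc
  have h1 := h x y hy hyx j p c hc (pr (p ^ 2) (y + 1)) (qset {p} (zz p) (y + 1)) (Subset.refl _)
    (filter_subset _ _) ?_ S hS
  · have h2 := hST p hp (y + 1) (by omega)
    have h3 := loglog_mono hy (by omega : y ≤ y + 1)
    have hlp : 0 < Real.log p := Real.log_pos (by exact_mod_cast hp.one_lt)
    have hly : 0 < Real.log y := Real.log_pos (by exact_mod_cast (by omega : 1 < y))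
    have h4 : Real.exp (-ST p (y + 1)) ≤ Real.exp K1 *
        (Real.log p * Real.sqrt (Real.log p) / (Real.log y * Real.sqrt (Real.log y))) := by
      rw [log_pow_half hlp, log_pow_half hly, ← Real.exp_sub, ← Real.exp_add]
      exact Real.exp_le_exp.2 (by linarith)
    have h5 : 0 ≤ K * x * vv (p :: c) := by
      have := vv_nonneg (p :: c)
      positivity
    refine h1.trans ((mul_le_mul_of_nonneg_left h4 h5).trans (le_of_eq ?_))
    ring
  · intro q hq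
    unfold qset at hq
    obtain ⟨a, l, hl, b⟩ := (mem_filter.1 hq).2
    rw [mem_singleton] at hl
    subst hl
    exact ⟨a, l, by simp, b⟩

theorem caseI : ∃ K : ℝ, 0 < K ∧ ∃ s : ℕ, 0 < s ∧ ∀ x y : ℕ, 2 ≤ y → y ^ (s + 2) ≤ x →
    ∀ (j p : ℕ) (c : List ℕ), p :: c ∈ CHb (j + 1) y →
    ∀ S : Finset ℕ, (∀ n ∈ S, 1 ≤ n ∧ n ≤ x ∧ Good n ∧ Gd (p :: c) n) →
    (S.card : ℝ) ≤ K * x * vv (p :: c) *
      Real.exp ((1 - (1 / 2) ^ (j + 1)) * (Real.log (Real.log p) - Real.log (Real.log y))) := by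
  obtain ⟨K, hK, s, hs, h⟩ := count_gen
  obtain ⟨C, hC, hQ⟩ := Qsum
  refine ⟨K * Real.exp (2 * C + Real.log 45), by positivity, s, hs, ?_⟩
  intro x y hy hyx j p c hc S hS
  obtain ⟨hc1, hc2, hp, hpy⟩ := CHb_self hc
  have hf1 := CHb_facts _ _ _ hc1
  have hp2 := hp.two_le
  have h1 := h x y hy hyx j p c hc ∅ (qset (p :: c).toFinset (zz p) (y + 1)) (empty_subset _)
    (filter_subset _ _) ?_ S (fun n hn => by
      obtain ⟨a1, a2, a3, a4⟩ := hS n hn
      exact ⟨a1, a2, a3, a4, by simp⟩)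
  · have h3 := loglog_mono hy (by omega : y ≤ y + 1)
    have hl45 := Real.log_pos (show (1 : ℝ) < 45 by norm_num)
    have hθ0 : (0 : ℝ) ≤ 1 - (1 / 2) ^ (j + 1) := by
      have : ((1 : ℝ) / 2) ^ (j + 1) ≤ 1 := pow_le_one₀ (by norm_num) (by norm_num)
      linarith
    have hθ1 : (1 : ℝ) - (1 / 2) ^ (j + 1) ≤ 1 := by
      have : (0 : ℝ) ≤ ((1 : ℝ) / 2) ^ (j + 1) := by positivity
      linarith
    have hz := loglog_zz p hp2
    have h4 : (1 - (1 / 2) ^ (j + 1)) * (Real.log (Real.log y) - Real.log (Real.log p))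
        - (2 * C + Real.log 45)
        ≤ 2 * ∑ q ∈ qset (p :: c).toFinset (zz p) (y + 1), (1 : ℝ) / q := by
      by_cases hzy : zz p ≤ y + 1
      · have hcard : (p :: c).toFinset.card = j + 1 := by
          rw [List.toFinset_card_of_nodup hf1.2.2.1, hf1.1]
        have h5 := hQ (p :: c).toFinset (by simp) (fun l hl =>
          (hf1.2.1 l (List.mem_toFinset.1 hl)).1) (zz p) (y + 1) ?_ hzy
        · rw [hcard] at h5
          have h6 : (1 - (1 / 2) ^ (j + 1)) * (Real.log (Real.log y) - Real.log (Real.log p))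
              ≤ (1 - (1 / 2) ^ (j + 1)) * (Real.log (Real.log ((y + 1 : ℕ) : ℝ))
                - Real.log (Real.log (zz p))) + Real.log 45 := by
            have h7 : (1 - (1 / 2 : ℝ) ^ (j + 1)) * Real.log 45 ≤ 1 * Real.log 45 :=
              mul_le_mul_of_nonneg_right hθ1 hl45.le
            have h8 : (1 - (1 / 2 : ℝ) ^ (j + 1)) * (Real.log (Real.log y)
                - Real.log (Real.log p)) ≤ (1 - (1 / 2 : ℝ) ^ (j + 1)) *
                (Real.log (Real.log ((y + 1 : ℕ) : ℝ)) - Real.log (Real.log (zz p))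
                  + Real.log 45) :=
              mul_le_mul_of_nonneg_left (by linarith) hθ0
            rw [mul_add] at h8
            linarith
          unfold qset
          linarith
        · have e : ∏ l ∈ (p :: c).toFinset, l = (p :: c).prod := by
            rw [List.prod_toFinset _ hf1.2.2.1]
            simp
          rw [e]
          unfold zz
          exact Nat.pow_le_pow_left (Nat.mul_le_mul_left _ (hf1.2.2.2.2 (by omega))) _
      · have h2 := loglog_mono hy (by omega : y ≤ zz p)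
        have h5 := sum_pr_nonneg (qset (p :: c).toFinset (zz p) (y + 1))
        have h6 : (1 - (1 / 2) ^ (j + 1)) * (Real.log (Real.log y) - Real.log (Real.log p))
            ≤ Real.log 45 := by
          calc (1 - (1 / 2) ^ (j + 1)) * (Real.log (Real.log y) - Real.log (Real.log p))
              ≤ (1 - (1 / 2) ^ (j + 1)) * Real.log 45 :=
                mul_le_mul_of_nonneg_left (by linarith) hθ0
            _ ≤ 1 * Real.log 45 := mul_le_mul_of_nonneg_right hθ1 hl45.le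
            _ = Real.log 45 := one_mul _
        linarith
    rw [sum_empty, zero_add] at h1
    have h5 : 0 ≤ K * x * vv (p :: c) := by
      have := vv_nonneg (p :: c)
      positivity
    have h7 : Real.exp (-(2 * ∑ q ∈ qset (p :: c).toFinset (zz p) (y + 1), (1 : ℝ) / q))
        ≤ Real.exp (2 * C + Real.log 45) *
        Real.exp ((1 - (1 / 2) ^ (j + 1)) * (Real.log (Real.log p) - Real.log (Real.log y))) := by
      rw [← Real.exp_add]
      exact Real.exp_le_exp.2 (by linarith)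
    refine h1.trans ((mul_le_mul_of_nonneg_left h7 h5).trans (le_of_eq ?_))
    ring
  · intro q hq
    unfold qset at hq
    obtain ⟨a, l, hl, b⟩ := (mem_filter.1 hq).2
    exact ⟨a, l, List.mem_toFinset.1 hl, b⟩

theorem case0 : ∃ K : ℝ, 0 < K ∧ ∃ s : ℕ, 0 < s ∧ ∀ x y : ℕ, 2 ≤ y → y ^ (s + 2) ≤ x →
    ∀ S : Finset ℕ, (∀ n ∈ S, 1 ≤ n ∧ n ≤ x ∧ ∀ l ∈ pr 2 (y + 1), ¬ l ∣ n) →
    (S.card : ℝ) ≤ K * x / Real.log y := by
  obtain ⟨K, hK, s, hs, h⟩ := sieve_apply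
  obtain ⟨C, hC, hM⟩ := mertens_two
  refine ⟨K * Real.exp C, by positivity, s, hs, ?_⟩
  intro x y hy hyx S hS
  have h1 := h x y 1 hy le_rfl (by
    rw [one_mul]
    exact (Nat.pow_le_pow_right (by omega) (by omega)).trans hyx) (pr 2 (y + 1)) ∅
    (Subset.refl _) (empty_subset _) (by simp) S (fun n hn => by
      obtain ⟨a1, a2, a3⟩ := hS n hn
      exact ⟨a1, a2, one_dvd _, a3, by simp⟩)
  rw [sum_empty, mul_zero, sub_zero, Nat.cast_one, div_one] at h1
  have h2 := (abs_le.1 (hM 2 (y + 1) le_rfl (by omega))).1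
  have h3 := loglog_mono hy (by omega : y ≤ y + 1)
  have hl2 := Real.log_two_gt_d9
  have hl2' := Real.log_two_lt_d9
  have h4 : Real.log (Real.log 2) ≤ 0 := by
    apply Real.log_nonpos <;> linarith
  rw [Nat.cast_ofNat] at h2
  have hly : 0 < Real.log y := Real.log_pos (by exact_mod_cast (by omega : 1 < y))
  have h5 : Real.exp (-∑ l ∈ pr 2 (y + 1), (1 : ℝ) / l) ≤ Real.exp C / Real.log y := by
    have : -∑ l ∈ pr 2 (y + 1), (1 : ℝ) / l ≤ C - Real.log (Real.log y) := by linarith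
    have h := Real.exp_le_exp.2 this
    rwa [Real.exp_sub, Real.exp_log hly] at h
  have h6 : 0 ≤ K * (x : ℝ) := by positivity
  refine h1.trans ((mul_le_mul_of_nonneg_left h5 h6).trans (le_of_eq ?_))
  ring

end Pool.Agent.H37.PW
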