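import Pool.Agent.H37.PPD.C2
import Pool.Agent.H37.PW.Base
import Pool.Agent.H37.PW.CC
import Pool.Agent.H37.PW.RS

/-!
PPD C2: the cases where n or v = n²+n+1 has no small prime factor.

`case_ii`: n composite with no prime factor ≤ y: p = least prime factor, y < p ≤ √x.  count_PQ with P = {p}, Q = ∅, Z0 = pr 2 (y+1),
  Zq = A1 {p} 2 (y+1) (test); p·y^s ≤ x as p² ≤ x and y^(2s) ≤ x.  rs Z0 ≥ ll y - C; if p is not exceptional (exceptional1)
  2 rs Zq ≥ 2 rs (A1 {p} 2 p) - 2 rs (pr (y+1) p) ≥ (3/8) ll p - C - 2(ll p - ll y) ≥ (3/8) ll y - C_t since ll p ≤ ll y + C_t (p ≤ x < (y+1)^t).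
  Sum over y < p ≤ x: ∑ 1/p ≤ ll x - ll y + C ≤ C_t.  Exceptional p: ∑_{p∈E, p>y} 1/p ≤ (1/log y) ∑ log p/p ≤ C exp(-ll y).
`case_iii`: v has no prime factor ≤ y but one (q, the least) ≤ u: P = ∅, Q = {q}, Z0 = A0 {q} 2 (y+1), Zq = (pr 2 (y+1)).filter (·%3=1)
  (sum_mod3), exceptional0 in the same way.
`case_iv`: P = Q = ∅, Z0 = (pr 2 (y+1)).filter (·%4=3) (good_mod4, sum_mod4), Zq = (pr 2 (y+1)).filter (·%3=1).
`case_v`: P = Q = ∅, Z0 = ∅, Zq as before.   `case_vi`: Z0 = pr 2 (y+1), Zq = ∅.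
-/

set_option autoImplicit false

namespace Pool.Agent.H37.PW

open Finset Pool.Agent.H37.PPC Pool.Agent.H37.PPD Pool.Agent.H37.PV

theorem C2_mert : ∃ C : ℝ, 0 < C ∧ ∀ a b : ℕ, 2 ≤ a → a ≤ b →
    rs (pr a b) ≤ ll b - ll a + C ∧ ll b - ll a - C ≤ rs (pr a b) := by
  obtain ⟨C, hC, h⟩ := mertens_two
  refine ⟨C, hC, fun a b ha hab => ?_⟩
  have h1 := abs_le.1 (h a b ha hab)
  unfold rs ll
  constructor
  · linarith [h1.2]
  · linarith [h1.1]

theorem C2_rs_nonneg (A : Finset ℕ) : 0 ≤ rs A := sum_nonneg (fun l _ => by positivity)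

theorem C2_rs_mono {A B : Finset ℕ} (h : A ⊆ B) : rs A ≤ rs B :=
  sum_le_sum_of_subset_of_nonneg h (fun l _ _ => by positivity)

theorem C2_ll_mono {a b : ℕ} (ha : 2 ≤ a) (hab : a ≤ b) : ll a ≤ ll b := loglog_mono ha hab

theorem C2_ll_two_neg : ll 2 ≤ 0 := by
  unfold ll
  have h1 := Real.log_two_gt_d9
  have h2 := Real.log_two_lt_d9
  apply Real.log_nonpos
  · push_cast
    linarith
  · push_cast
    linarith

theorem C2_ll_ge {y : ℕ} (hy : 2 ≤ y) : -1 ≤ ll y := by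
  have h1 : ll 2 ≤ ll y := C2_ll_mono le_rfl hy
  have h2 : -1 ≤ ll 2 := by
    unfold ll
    have h3 := Real.log_two_gt_d9
    rw [Real.le_log_iff_exp_le (by push_cast; linarith)]
    have h4 : Real.exp (-1) ≤ 0.5 := by
      rw [Real.exp_neg]
      have := Real.exp_one_gt_d9
      rw [inv_le_comm₀ (by positivity) (by norm_num)]
      linarith
    push_cast
    linarith
  linarith

theorem C2_ll_pow {k y t : ℕ} (hy : 2 ≤ y) (hk : 2 ≤ k) (hkt : k ≤ (y + 1) ^ t) :
    ll k ≤ Real.log t + ll (y + 1) := by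
  have ht : t ≠ 0 := by
    rintro rfl
    simp at hkt
    omega
  have hlk : 0 < Real.log k := Real.log_pos (by exact_mod_cast (by omega : 1 < k))
  have hly : 0 < Real.log ((y + 1 : ℕ) : ℝ) := Real.log_pos (by exact_mod_cast (by omega : 1 < y + 1))
  have ht' : (0 : ℝ) < t := by exact_mod_cast Nat.pos_of_ne_zero ht
  have h1 : Real.log k ≤ t * Real.log ((y + 1 : ℕ) : ℝ) := by
    rw [← Real.log_pow]
    apply Real.log_le_log (by exact_mod_cast (by omega : 0 < k))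
    exact_mod_cast hkt
  unfold ll
  rw [← Real.log_mul ht'.ne' hly.ne']
  exact Real.log_le_log hlk h1

theorem C2_log_nonneg (t : ℕ) : 0 ≤ Real.log t := Real.log_natCast_nonneg t

open Classical in
theorem C2_split : ∃ M : ℝ, 0 < M ∧ ∀ (E : Set ℕ) (CE : ℝ), 0 < CE →
    (∀ w : ℕ, ∑ q ∈ (pr 2 w).filter (fun q => q ∈ E), Real.log q / q ≤ CE) →
    ∀ t x y z : ℕ, 2 ≤ y → z ≤ x → x < (y + 1) ^ t → ∀ I : Finset ℕ, I ⊆ pr (y + 1) (z + 1) →
    ∀ (f : ℕ → ℝ) (A B : ℝ), 0 ≤ A →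
    (∀ p ∈ I, p ∉ E → f p ≤ A * (x / p) * Real.exp (B - (11 / 8) * ll y)) →
    (∀ p ∈ I, p ∈ E → f p ≤ A * (x / p) * Real.exp (B - ll y)) →
    ∑ p ∈ I, f p ≤ A * (Real.log t + M + CE) * Real.exp (B + 1) * x *
      Real.exp (-(5 / 4) * ll y) := by
  obtain ⟨M, hM, hmert⟩ := C2_mert
  refine ⟨M, hM, ?_⟩
  intro E CE hCE hE t x y z hy hzx hxt I hI f A B hA h1 h2
  have hlly := C2_ll_ge hy
  have hlog := C2_log_nonneg t
  have hly : 0 < Real.log y := Real.log_pos (by exact_mod_cast (by omega : 1 < y))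
  have hS : rs (pr (y + 1) (z + 1)) ≤ Real.log t + M := by
    by_cases hyz : y + 1 ≤ z + 1
    · have h3 := (hmert (y + 1) (z + 1) (by omega) hyz).1
      have h4 := C2_ll_pow hy (by omega : 2 ≤ z + 1) (by omega : z + 1 ≤ (y + 1) ^ t)
      linarith
    · have : pr (y + 1) (z + 1) = ∅ := by
        ext p
        rw [mem_pr]
        simp only [notMem_empty, iff_false]
        omega
      rw [this]
      unfold rs
      rw [sum_empty]
      linarith
  have hIS : rs I ≤ Real.log t + M := (C2_rs_mono hI).trans hS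
  have hexp1 : Real.exp (B - (11 / 8) * ll y) ≤ Real.exp (B + 1) * Real.exp (-(5 / 4) * ll y) := by
    rw [← Real.exp_add]
    exact Real.exp_le_exp.2 (by linarith)
  have hIE : ∑ p ∈ I.filter (fun p => p ∈ E), (1 : ℝ) / p ≤ CE * Real.exp (-ll y) := by
    have h3 : ∑ p ∈ I.filter (fun p => p ∈ E), (1 : ℝ) / p ≤
        ∑ p ∈ I.filter (fun p => p ∈ E), (Real.log p / p) / Real.log y := by
      refine sum_le_sum fun p hp => ?_
      have hp' := mem_pr.1 (hI (mem_filter.1 hp).1)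
      have h4 : Real.log y ≤ Real.log p := Real.log_le_log (by exact_mod_cast (by omega : 0 < y))
        (by exact_mod_cast (by omega : y ≤ p))
      have h5 : (0 : ℝ) < p := by exact_mod_cast (by omega : 0 < p)
      rw [div_right_comm]
      apply div_le_div_of_nonneg_right _ h5.le
      rw [one_le_div hly]
      exact h4
    have h6 : ∑ p ∈ I.filter (fun p => p ∈ E), Real.log p / p ≤ CE := by
      refine le_trans ?_ (hE (z + 1))
      apply sum_le_sum_of_subset_of_nonneg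
      · intro p hp
        rw [mem_filter] at hp ⊢
        have hp' := mem_pr.1 (hI hp.1)
        exact ⟨mem_pr.2 ⟨⟨by omega, hp'.1.2⟩, hp'.2⟩, hp.2⟩
      · intro p _ _
        have := C2_log_nonneg p
        positivity
    rw [← sum_div] at h3
    refine h3.trans ?_
    rw [Real.exp_neg]
    unfold ll
    rw [Real.exp_log hly, ← div_eq_mul_inv]
    exact div_le_div_of_nonneg_right h6 hly.le
  have hx : (0 : ℝ) ≤ x := by positivity
  have hsum1 : ∑ p ∈ I.filter (fun p => p ∉ E), f p ≤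
      A * (Real.log t + M) * Real.exp (B + 1) * x * Real.exp (-(5 / 4) * ll y) := by
    calc ∑ p ∈ I.filter (fun p => p ∉ E), f p
        ≤ ∑ p ∈ I.filter (fun p => p ∉ E), (A * x * Real.exp (B - (11 / 8) * ll y)) * (1 / p) := by
          refine sum_le_sum fun p hp => ?_
          rw [mem_filter] at hp
          refine (h1 p hp.1 hp.2).trans (le_of_eq ?_)
          ring
      _ ≤ ∑ p ∈ I, (A * x * Real.exp (B - (11 / 8) * ll y)) * (1 / p) := by
          apply sum_le_sum_of_subset_of_nonneg (filter_subset _ _)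
          intro p _ _
          positivity
      _ = (A * x * Real.exp (B - (11 / 8) * ll y)) * rs I := by
          unfold rs
          rw [mul_sum]
      _ ≤ (A * x * (Real.exp (B + 1) * Real.exp (-(5 / 4) * ll y))) * (Real.log t + M) := by
          apply mul_le_mul _ hIS (C2_rs_nonneg _) (by positivity)
          exact mul_le_mul_of_nonneg_left hexp1 (by positivity)
      _ = _ := by ring
  have hsum2 : ∑ p ∈ I.filter (fun p => p ∈ E), f p ≤
      A * CE * Real.exp (B + 1) * x * Real.exp (-(5 / 4) * ll y) := by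
    calc ∑ p ∈ I.filter (fun p => p ∈ E), f p
        ≤ ∑ p ∈ I.filter (fun p => p ∈ E), (A * x * Real.exp (B - ll y)) * (1 / p) := by
          refine sum_le_sum fun p hp => ?_
          rw [mem_filter] at hp
          refine (h2 p hp.1 hp.2).trans (le_of_eq ?_)
          ring
      _ = (A * x * Real.exp (B - ll y)) * ∑ p ∈ I.filter (fun p => p ∈ E), (1 : ℝ) / p := by
          rw [mul_sum]
      _ ≤ (A * x * Real.exp (B - ll y)) * (CE * Real.exp (-ll y)) :=
          mul_le_mul_of_nonneg_left hIE (by positivity)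
      _ = A * CE * x * (Real.exp (B - ll y) * Real.exp (-ll y)) := by ring
      _ ≤ A * CE * x * (Real.exp (B + 1) * Real.exp (-(5 / 4) * ll y)) := by
          apply mul_le_mul_of_nonneg_left _ (by positivity)
          rw [← Real.exp_add, ← Real.exp_add]
          exact Real.exp_le_exp.2 (by linarith)
      _ = _ := by ring
  have hsplit := sum_filter_add_sum_filter_not I (fun p => p ∈ E) f
  rw [← hsplit]
  calc _ ≤ A * CE * Real.exp (B + 1) * x * Real.exp (-(5 / 4) * ll y) +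
      A * (Real.log t + M) * Real.exp (B + 1) * x * Real.exp (-(5 / 4) * ll y) :=
        add_le_add hsum2 hsum1
    _ = _ := by ring

theorem case_ii : ∃ s : ℕ, 0 < s ∧ ∀ t : ℕ, ∃ K : ℝ, 0 < K ∧ ∀ x y : ℕ, 2 ≤ y → y ^ (2 * s) ≤ x →
    x < (y + 1) ^ t → ∀ S : Finset ℕ, (∀ n ∈ S, 1 ≤ n ∧ n ≤ x ∧ Good n ∧ ¬ n.Prime ∧
      (∀ l ∈ pr 2 (y + 1), ¬ l ∣ n)) →
    (S.card : ℝ) ≤ K * x * Real.exp (-(5 / 4) * ll y) := by
  classical
  obtain ⟨C, hC, s, hs, hcount⟩ := count_PQ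
  obtain ⟨E, CE, hCE, hE, hexc⟩ := exceptional1
  obtain ⟨M, hM, hsplit⟩ := C2_split
  obtain ⟨M2, hM2, hmert⟩ := C2_mert
  refine ⟨s, hs, fun t => ?_⟩
  have hlt := C2_log_nonneg t
  set B : ℝ := 3 * M2 + CE + 2 * Real.log t with hB
  refine ⟨C * (Real.log t + M + CE) * Real.exp (B + 1), by positivity, ?_⟩
  intro x y hy hyx hxt S hS
  set I : Finset ℕ := (pr (y + 1) (x + 1)).filter (fun p => p ^ 2 ≤ x) with hI
  have hcard : (S.card : ℝ) ≤ ∑ p ∈ I, ((S.filter (fun n => p ∣ n)).card : ℝ) := by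
    have h1 : S ⊆ I.biUnion (fun p => S.filter (fun n => p ∣ n)) := by
      intro n hn
      obtain ⟨n1, n2, n3, n4, n5⟩ := hS n hn
      have n6 : n ≠ 1 := by
        have := n3.1
        omega
      have hp := Nat.minFac_prime n6
      have hpn := Nat.minFac_dvd n
      rw [mem_biUnion]
      refine ⟨n.minFac, ?_, mem_filter.2 ⟨hn, hpn⟩⟩
      have hsq : n.minFac ^ 2 ≤ n := Nat.minFac_sq_le_self (by omega) n4
      rw [hI, mem_filter, mem_pr]
      refine ⟨⟨⟨?_, ?_⟩, hp⟩, hsq.trans n2⟩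
      · by_contra hlt'
        exact n5 n.minFac (mem_pr.2 ⟨⟨hp.two_le, by omega⟩, hp⟩) hpn
      · have := Nat.minFac_le (by omega : 0 < n)
        omega
    have h2 := (card_le_card h1).trans card_biUnion_le
    exact_mod_cast h2
  refine hcard.trans ?_
  -- the count for one prime
  have hone : ∀ p ∈ I, ((S.filter (fun n => p ∣ n)).card : ℝ) ≤
      C * (x / p) * Real.exp (-(rs (pr 2 (y + 1)) + 2 * rs (A1 {p} 2 (y + 1)))) := by
    intro p hp
    rw [hI, mem_filter, mem_pr] at hp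
    have hpy : p * y ^ s ≤ x := by
      have h3 : (p * y ^ s) ^ 2 ≤ x ^ 2 := by
        calc (p * y ^ s) ^ 2 = p ^ 2 * y ^ (2 * s) := by ring
          _ ≤ x * x := Nat.mul_le_mul hp.2 hyx
          _ = x ^ 2 := by ring
      exact (Nat.pow_le_pow_iff_left two_ne_zero).1 h3
    have hA1 : A1 {p} 2 (y + 1) ⊆ pr 2 (y + 1) := filter_subset _ _
    have h := hcount x y hy {p} ∅ (by simpa using hp.1.2) (by simp) (by simp) (by simpa using hpy)
      (pr 2 (y + 1)) (A1 {p} 2 (y + 1)) (Subset.refl _) hA1 ?_ ?_ ?_ (S.filter (fun n => p ∣ n)) ?_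
    · simpa using h
    · rw [union_empty, disjoint_singleton_right, mem_pr]
      omega
    · rw [union_empty, disjoint_singleton_right]
      intro hmem
      have := mem_pr.1 (hA1 hmem)
      omega
    · intro q hq
      exact (mem_filter.1 hq).2.1
    · intro n hn
      rw [mem_filter] at hn
      obtain ⟨n1, n2, n3, n4, n5⟩ := hS n hn.1
      refine ⟨n1, n2, by simpa using hn.2, by simp, n5, ?_⟩
      intro q hq
      obtain ⟨q1, q2, p', hp', hj⟩ := mem_filter.1 hq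
      rw [mem_singleton] at hp'
      subst hp'
      exact n3.test hp.1.2 hn.2 (mem_pr.1 q1).2 hj
  have hbase : ll y - M2 ≤ rs (pr 2 (y + 1)) := by
    have h3 := (hmert 2 (y + 1) le_rfl (by omega)).2
    have h4 := C2_ll_two_neg
    have h5 := C2_ll_mono hy (by omega : y ≤ y + 1)
    linarith
  refine (hsplit E CE hCE hE t x y x hy le_rfl hxt I (filter_subset _ _)
    (fun p => ((S.filter (fun n => p ∣ n)).card : ℝ)) C B hC.le ?_ ?_).trans (le_of_eq (by ring))
  · intro p hp hpE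
    refine (hone p hp).trans ?_
    rw [hI, mem_filter, mem_pr] at hp
    apply mul_le_mul_of_nonneg_left _ (by positivity)
    apply Real.exp_le_exp.2
    have h3 := hexc p hp.1.2 hpE
    have h4 : rs (A1 {p} 2 p) ≤ rs (A1 {p} 2 (y + 1)) + rs (pr (y + 1) p) := by
      unfold rs
      rw [← sum_union]
      · apply sum_le_sum_of_subset_of_nonneg
        · intro l hl
          rw [mem_union]
          obtain ⟨l1, l2⟩ := mem_filter.1 hl
          rw [mem_pr] at l1
          by_cases hly : l < y + 1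
          · left
            exact mem_filter.2 ⟨mem_pr.2 ⟨⟨l1.1.1, hly⟩, l1.2⟩, l2⟩
          · right
            exact mem_pr.2 ⟨⟨by omega, l1.1.2⟩, l1.2⟩
        · intro l _ _
          positivity
      · rw [disjoint_left]
        intro l hl hl'
        have l1 := mem_pr.1 (mem_filter.1 hl).1
        have l2 := mem_pr.1 hl'
        omega
    have h5 := (hmert (y + 1) p (by omega) hp.1.1.1).1
    have h6 := C2_ll_pow hy (by omega : 2 ≤ p) (by omega : p ≤ (y + 1) ^ t)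
    have h7 := C2_ll_mono hy (by omega : y ≤ p)
    rw [hB]
    linarith
  · intro p hp hpE
    refine (hone p hp).trans ?_
    apply mul_le_mul_of_nonneg_left _ (by positivity)
    apply Real.exp_le_exp.2
    have h3 := C2_rs_nonneg (A1 {p} 2 (y + 1))
    rw [hB]
    linarith

theorem case_iii : ∃ s : ℕ, 0 < s ∧ ∀ t : ℕ, ∃ K : ℝ, 0 < K ∧ ∀ x y u : ℕ, 2 ≤ y →
    u * y ^ s ≤ x → x < (y + 1) ^ t → ∀ S : Finset ℕ, (∀ n ∈ S, 1 ≤ n ∧ n ≤ x ∧ Good n ∧
      (∀ l ∈ pr 2 (y + 1), ¬ l ∣ n ^ 2 + n + 1) ∧ ∃ q : ℕ, q.Prime ∧ q ≤ u ∧ q ∣ n ^ 2 + n + 1) →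
    (S.card : ℝ) ≤ K * x * Real.exp (-(5 / 4) * ll y) := by
  classical
  obtain ⟨C, hC, s, hs, hcount⟩ := count_PQ
  obtain ⟨E, CE, hCE, hE, hexc⟩ := exceptional0
  obtain ⟨M, hM, hsplit⟩ := C2_split
  obtain ⟨M2, hM2, hmert⟩ := C2_mert
  obtain ⟨M3, hM3, hmod3⟩ := sum_mod3
  refine ⟨s, hs, fun t => ?_⟩
  have hlt := C2_log_nonneg t
  set B : ℝ := M2 + M3 + CE + Real.log t with hB
  refine ⟨(2 * C) * (Real.log t + M + CE) * Real.exp (B + 1), by positivity, ?_⟩
  intro x y u hy hux hxt S hS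
  have hys : 1 ≤ y ^ s := Nat.one_le_pow _ _ (by omega)
  have hu : u ≤ x := (Nat.le_mul_of_pos_right u hys).trans hux
  set I : Finset ℕ := pr (y + 1) (u + 1) with hI
  have hcard : (S.card : ℝ) ≤ ∑ q ∈ I, ((S.filter (fun n => q ∣ n ^ 2 + n + 1)).card : ℝ) := by
    have h1 : S ⊆ I.biUnion (fun q => S.filter (fun n => q ∣ n ^ 2 + n + 1)) := by
      intro n hn
      obtain ⟨n1, n2, n3, n4, q, hq, hqu, hqn⟩ := hS n hn
      rw [mem_biUnion]
      refine ⟨q, ?_, mem_filter.2 ⟨hn, hqn⟩⟩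
      rw [hI, mem_pr]
      refine ⟨⟨?_, by omega⟩, hq⟩
      by_contra hlt'
      exact n4 q (mem_pr.2 ⟨⟨hq.two_le, by omega⟩, hq⟩) hqn
    have h2 := (card_le_card h1).trans card_biUnion_le
    exact_mod_cast h2
  refine hcard.trans ?_
  have hone : ∀ q ∈ I, ((S.filter (fun n => q ∣ n ^ 2 + n + 1)).card : ℝ) ≤
      (2 * C) * (x / q) * Real.exp (-(rs (A0 {q} 2 (y + 1)) +
        2 * rs ((pr 2 (y + 1)).filter (fun l => l % 3 = 1)))) := by
    intro q hq
    rw [hI, mem_pr] at hq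
    have hqy : q * y ^ s ≤ x := (Nat.mul_le_mul_right _ (by omega : q ≤ u)).trans hux
    have hA0 : A0 {q} 2 (y + 1) ⊆ pr 2 (y + 1) := filter_subset _ _
    have hZq : (pr 2 (y + 1)).filter (fun l => l % 3 = 1) ⊆ pr 2 (y + 1) := filter_subset _ _
    have h := hcount x y hy ∅ {q} (by simp) (by simpa using hq.2) (by simp) (by simpa using hqy)
      (A0 {q} 2 (y + 1)) ((pr 2 (y + 1)).filter (fun l => l % 3 = 1)) hA0 hZq ?_ ?_ ?_
      (S.filter (fun n => q ∣ n ^ 2 + n + 1)) ?_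
    · refine h.trans (le_of_eq ?_)
      rw [prod_empty, prod_singleton, one_mul, card_singleton, pow_one]
      ring
    · rw [empty_union, disjoint_singleton_right]
      intro hmem
      have := mem_pr.1 (hA0 hmem)
      omega
    · rw [empty_union, disjoint_singleton_right]
      intro hmem
      have := mem_pr.1 (hZq hmem)
      omega
    · intro l hl
      exact (mem_filter.1 hl).2
    · intro n hn
      rw [mem_filter] at hn
      obtain ⟨n1, n2, n3, n4, n5⟩ := hS n hn.1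
      refine ⟨n1, n2, by simp, by simpa using hn.2, ?_, ?_⟩
      · intro l hl hln
        obtain ⟨l1, q', hq', hj⟩ := mem_filter.1 hl
        rw [mem_singleton] at hq'
        subst hq'
        exact n3.test (mem_pr.1 l1).2 hln hq.2 hj hn.2
      · intro l hl
        exact n4 l (hZq hl)
  have hbase : ll y - M3 ≤ 2 * rs ((pr 2 (y + 1)).filter (fun l => l % 3 = 1)) := by
    have h3 := hmod3 2 (y + 1) le_rfl (by omega)
    have h4 := C2_ll_two_neg
    have h5 := C2_ll_mono hy (by omega : y ≤ y + 1)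
    linarith
  refine (hsplit E CE hCE hE t x y u hy hu hxt I (Subset.refl _)
    (fun q => ((S.filter (fun n => q ∣ n ^ 2 + n + 1)).card : ℝ)) (2 * C) B (by positivity)
    ?_ ?_).trans (le_of_eq (by ring))
  · intro q hq hqE
    refine (hone q hq).trans ?_
    rw [hI, mem_pr] at hq
    apply mul_le_mul_of_nonneg_left _ (by positivity)
    apply Real.exp_le_exp.2
    have h3 := hexc q hq.2 (by omega) hqE
    have h4 : rs (A0 {q} 2 q) ≤ rs (A0 {q} 2 (y + 1)) + rs (pr (y + 1) q) := by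
      unfold rs
      rw [← sum_union]
      · apply sum_le_sum_of_subset_of_nonneg
        · intro l hl
          rw [mem_union]
          obtain ⟨l1, l2⟩ := mem_filter.1 hl
          rw [mem_pr] at l1
          by_cases hly : l < y + 1
          · left
            exact mem_filter.2 ⟨mem_pr.2 ⟨⟨l1.1.1, hly⟩, l1.2⟩, l2⟩
          · right
            exact mem_pr.2 ⟨⟨by omega, l1.1.2⟩, l1.2⟩
        · intro l _ _
          positivity
      · rw [disjoint_left]
        intro l hl hl'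
        have l1 := mem_pr.1 (mem_filter.1 hl).1
        have l2 := mem_pr.1 hl'
        omega
    have h5 := (hmert (y + 1) q (by omega) hq.1.1).1
    have h6 := C2_ll_pow hy (by omega : 2 ≤ q) (by omega : q ≤ (y + 1) ^ t)
    have h7 := C2_ll_mono hy (by omega : y ≤ q)
    rw [hB]
    linarith
  · intro q hq hqE
    refine (hone q hq).trans ?_
    apply mul_le_mul_of_nonneg_left _ (by positivity)
    apply Real.exp_le_exp.2
    have h3 := C2_rs_nonneg (A0 {q} 2 (y + 1))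
    rw [hB]
    linarith

theorem C2_plain : ∃ C : ℝ, 0 < C ∧ ∃ s : ℕ, 0 < s ∧ ∀ (x y : ℕ), 2 ≤ y → y ^ s ≤ x →
    ∀ Z0 Zq : Finset ℕ, Z0 ⊆ pr 2 (y + 1) → Zq ⊆ pr 2 (y + 1) → (∀ q ∈ Zq, q % 3 = 1) →
    ∀ S : Finset ℕ, (∀ n ∈ S, 1 ≤ n ∧ n ≤ x ∧ (∀ l ∈ Z0, ¬ l ∣ n) ∧
      (∀ q ∈ Zq, ¬ q ∣ n ^ 2 + n + 1)) →
    (S.card : ℝ) ≤ C * x * Real.exp (-(rs Z0 + 2 * rs Zq)) := by
  obtain ⟨C, hC, s, hs, hcount⟩ := count_PQ
  refine ⟨C, hC, s, hs, ?_⟩
  intro x y hy hyx Z0 Zq h0 hq hq3 S hS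
  have h := hcount x y hy ∅ ∅ (by simp) (by simp) (by simp) (by simpa using hyx) Z0 Zq h0 hq
    (by simp) (by simp) hq3 S (fun n hn => by
      obtain ⟨a1, a2, a3, a4⟩ := hS n hn
      exact ⟨a1, a2, by simp, by simp, a3, a4⟩)
  simpa using h

theorem case_iv : ∃ s : ℕ, 0 < s ∧ ∃ K : ℝ, 0 < K ∧ ∀ x y : ℕ, 2 ≤ y → y ^ s ≤ x →
    ∀ S : Finset ℕ, (∀ n ∈ S, 1 ≤ n ∧ n ≤ x ∧ Good n ∧ (n % 4 = 1 ∨ n % 4 = 2) ∧
      (∀ l ∈ pr 2 (y + 1), ¬ l ∣ n ^ 2 + n + 1)) →
    (S.card : ℝ) ≤ K * x * Real.exp (-(3 / 2) * ll y) := by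
  obtain ⟨C, hC, s, hs, hcount⟩ := C2_plain
  obtain ⟨M3, hM3, hmod3⟩ := sum_mod3
  obtain ⟨M4, hM4, hmod4⟩ := sum_mod4
  refine ⟨s, hs, C * Real.exp (M3 + M4), by positivity, ?_⟩
  intro x y hy hyx S hS
  have h := hcount x y hy hyx ((pr 2 (y + 1)).filter (fun l => l % 4 = 3))
    ((pr 2 (y + 1)).filter (fun l => l % 3 = 1)) (filter_subset _ _) (filter_subset _ _)
    (fun q hq => (mem_filter.1 hq).2) S (fun n hn => by
      obtain ⟨a1, a2, a3, a4, a5⟩ := hS n hn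
      refine ⟨a1, a2, ?_, fun q hq => a5 q (mem_filter.1 hq).1⟩
      intro l hl hln
      obtain ⟨l1, l2⟩ := mem_filter.1 hl
      exact good_mod4 a3 a4 (mem_pr.1 l1).2 hln l2)
  have h3 := hmod3 2 (y + 1) le_rfl (by omega)
  have h4 := hmod4 2 (y + 1) le_rfl (by omega)
  have h5 := C2_ll_two_neg
  have h6 := C2_ll_mono hy (by omega : y ≤ y + 1)
  refine h.trans ?_
  have h7 : Real.exp (-(rs ((pr 2 (y + 1)).filter (fun l => l % 4 = 3)) +
      2 * rs ((pr 2 (y + 1)).filter (fun l => l % 3 = 1)))) ≤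
      Real.exp (M3 + M4) * Real.exp (-(3 / 2) * ll y) := by
    rw [← Real.exp_add]
    exact Real.exp_le_exp.2 (by linarith)
  refine (mul_le_mul_of_nonneg_left h7 (by positivity)).trans (le_of_eq ?_)
  ring

theorem case_v : ∃ s : ℕ, 0 < s ∧ ∃ K : ℝ, 0 < K ∧ ∀ x y : ℕ, 2 ≤ y → y ^ s ≤ x →
    ∀ S : Finset ℕ, (∀ n ∈ S, 1 ≤ n ∧ n ≤ x ∧ (∀ l ∈ pr 2 (y + 1), ¬ l ∣ n ^ 2 + n + 1)) →
    (S.card : ℝ) ≤ K * x * Real.exp (-ll y) := by
  obtain ⟨C, hC, s, hs, hcount⟩ := C2_plain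
  obtain ⟨M3, hM3, hmod3⟩ := sum_mod3
  refine ⟨s, hs, C * Real.exp M3, by positivity, ?_⟩
  intro x y hy hyx S hS
  have h := hcount x y hy hyx ∅
    ((pr 2 (y + 1)).filter (fun l => l % 3 = 1)) (empty_subset _) (filter_subset _ _)
    (fun q hq => (mem_filter.1 hq).2) S (fun n hn => by
      obtain ⟨a1, a2, a5⟩ := hS n hn
      exact ⟨a1, a2, by simp, fun q hq => a5 q (mem_filter.1 hq).1⟩)
  have h3 := hmod3 2 (y + 1) le_rfl (by omega)
  have h5 := C2_ll_two_neg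
  have h6 := C2_ll_mono hy (by omega : y ≤ y + 1)
  refine h.trans ?_
  have h8 := C2_rs_nonneg ∅
  have h7 : Real.exp (-(rs ∅ + 2 * rs ((pr 2 (y + 1)).filter (fun l => l % 3 = 1)))) ≤
      Real.exp M3 * Real.exp (-ll y) := by
    rw [← Real.exp_add]
    exact Real.exp_le_exp.2 (by linarith)
  refine (mul_le_mul_of_nonneg_left h7 (by positivity)).trans (le_of_eq ?_)
  ring

theorem case_vi : ∃ s : ℕ, 0 < s ∧ ∃ K : ℝ, 0 < K ∧ ∀ x y : ℕ, 2 ≤ y → y ^ s ≤ x →
    ∀ S : Finset ℕ, (∀ n ∈ S, 1 ≤ n ∧ n ≤ x ∧ (∀ l ∈ pr 2 (y + 1), ¬ l ∣ n)) →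
    (S.card : ℝ) ≤ K * x * Real.exp (-ll y) := by
  obtain ⟨C, hC, s, hs, hcount⟩ := C2_plain
  obtain ⟨M2, hM2, hmert⟩ := C2_mert
  refine ⟨s, hs, C * Real.exp M2, by positivity, ?_⟩
  intro x y hy hyx S hS
  have h := hcount x y hy hyx (pr 2 (y + 1)) ∅ (Subset.refl _) (empty_subset _)
    (by simp) S (fun n hn => by
      obtain ⟨a1, a2, a5⟩ := hS n hn
      exact ⟨a1, a2, a5, by simp⟩)
  have h3 := (hmert 2 (y + 1) le_rfl (by omega)).2
  have h5 := C2_ll_two_neg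
  have h6 := C2_ll_mono hy (by omega : y ≤ y + 1)
  refine h.trans ?_
  have h8 := C2_rs_nonneg ∅
  have h7 : Real.exp (-(rs (pr 2 (y + 1)) + 2 * rs ∅)) ≤ Real.exp M2 * Real.exp (-ll y) := by
    rw [← Real.exp_add]
    exact Real.exp_le_exp.2 (by linarith)
  refine (mul_le_mul_of_nonneg_left h7 (by positivity)).trans (le_of_eq ?_)
  ring

end Pool.Agent.H37.PW
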