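import Pool.Agent.H37.PPE.AA
import Pool.Agent.H37.PW.Base
import Pool.Agent.H37.PW.C2
import Pool.Agent.H37.PW.CA
import Pool.Agent.H37.PW.CB
import Pool.Agent.H37.PW.CC
import Pool.Agent.H37.PW.CI
import Pool.Agent.H37.PW.Fin
import Pool.Agent.H37.PW.G2
import Pool.Agent.H37.PW.MN
import Pool.Agent.H37.PW.RS
import Pool.Agent.H37.PW.ST

/-!
PPE AA: almost all orders of planar cyclic difference sets are primes.

Let n ≤ x be an order, not prime, not a square, not counted in structure_main ε (ε ≤ 1/8): n ≡ 0, 3 mod 4, all prime factors of v = n²+n+1 are > x^(1-ε).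
 v ≤ 3x² < x^(3(1-ε)) for x large, so v is prime or v = q1 q2 (q1 ≤ q2 primes; possibly equal).  v odd, v ≡ 1 mod 4.
 (a) v = q1 q2: I1 with Y = floor(x^(1-ε)), J ≤ 2 ε log x + 3 (2^J ≥ x/Y), z = root of x (z^(2T0) ≤ x < (z+1)^(2T0), exists_root; z^T0 ≤ x^(1/2) ≤ Y):
     all prime factors are > x^(1-ε) ≥ z, ≤ C(2 ε log x + 4) x exp(-2 ll z) ≤ C' (ε + 1/log x) x/log x (exp_ll_le with a = 2).
 (b) v prime: QL gives (A,B), A ≠ 0 (v is not a square), replace A by |A|: for A < 0 use A + B(-ι) and that -1 is a square mod p (p ≡ 1 mod 4);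
     for p ∈ Q0, p ∣ n: p ∣ v-1, p ≡ 1 mod 4, MN gives p^((v-1)/4) = 1 in ZMod v, so A+Bι is a square.  I2 with z = root of x (T): v prime > z.
     ≤ C ∏_{Q0}(1-1/(4p)) x exp(-ll z) + C x^(7/8) ≤ C' ∏_{Q0}(1-1/(4p)) x/log x + C x^(7/8).
     Q0 = primes ≡ 1 mod 12 in [13, y), y large (rho_sum12/sum_mod12: ∏ ≤ exp(-∑ 1/(4p)) → 0).
 Choose ε, Q0 (depending on η), then x large.
-/

set_option autoImplicit false

namespace Pool.Agent.H37.PW

open Finset Pool.Agent.H37.PPC Pool.Agent.H37.PPD Pool.Agent.H37.PPE Pool.Agent.H37.PV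

theorem AA_log_ev (c r : ℝ) (hc : 0 < c) (hr : 0 < r) : ∃ x0 : ℕ, ∀ x : ℕ, x0 ≤ x →
    Real.log x ≤ c * (x : ℝ) ^ r := by
  have h := (isLittleO_log_rpow_atTop hr).def hc
  have h1 := tendsto_natCast_atTop_atTop.eventually h
  obtain ⟨x0, hx0⟩ := Filter.eventually_atTop.1 (h1.and (Filter.eventually_ge_atTop 1))
  refine ⟨x0, fun x hx => ?_⟩
  obtain ⟨h2, h3⟩ := hx0 x hx
  have h4 : (1 : ℝ) ≤ x := by exact_mod_cast h3
  rw [Real.norm_of_nonneg (Real.log_nonneg h4), Real.norm_of_nonneg (by positivity)] at h2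
  exact h2

theorem AA_log_ge (K : ℝ) : ∃ x0 : ℕ, ∀ x : ℕ, x0 ≤ x → K ≤ Real.log x := by
  have h1 : ∀ᶠ x : ℕ in Filter.atTop, K ≤ Real.log x :=
    (Real.tendsto_log_atTop.comp tendsto_natCast_atTop_atTop).eventually_ge_atTop K
  exact Filter.eventually_atTop.1 h1

/-- for every δ there is a finite set of primes ≡ 1 mod 12 with ∏ (1 - 1/(4p)) ≤ δ -/
theorem exists_Q0 (δ : ℝ) (hδ : 0 < δ) : ∃ Q0 : Finset ℕ, (∀ p ∈ Q0, p.Prime ∧ p % 12 = 1) ∧
    ∏ p ∈ Q0, (1 - 1 / (4 * (p : ℝ))) ≤ δ := by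
  obtain ⟨C, hC, h⟩ := sum_mod12
  have ht : Filter.Tendsto (fun w : ℕ => ll w) Filter.atTop Filter.atTop :=
    Real.tendsto_log_atTop.comp (Real.tendsto_log_atTop.comp tendsto_natCast_atTop_atTop)
  obtain ⟨w, hw, hw2⟩ := ((ht.eventually_ge_atTop
    (4 * (C - 4 * Real.log δ) + ll 2)).and (Filter.eventually_ge_atTop 2)).exists
  refine ⟨(pr 2 w).filter (fun l => l % 12 = 1), ?_, ?_⟩
  · intro p hp
    rw [mem_filter, mem_pr] at hp
    exact ⟨hp.1.2, hp.2⟩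
  · have h1 := h 2 w le_rfl hw2
    calc ∏ p ∈ (pr 2 w).filter (fun l => l % 12 = 1), (1 - 1 / (4 * (p : ℝ)))
        ≤ ∏ p ∈ (pr 2 w).filter (fun l => l % 12 = 1), Real.exp (-(1 / (4 * (p : ℝ)))) := by
          refine prod_le_prod ?_ ?_
          · intro p hp
            rw [mem_filter, mem_pr] at hp
            have h2 : (2 : ℝ) ≤ p := by exact_mod_cast hp.1.2.two_le
            have h3 : 1 / (4 * (p : ℝ)) ≤ 1 := by
              rw [div_le_one (by positivity)]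
              linarith only [h2]
            linarith only [h3]
          · intro p hp
            have := Real.add_one_le_exp (-(1 / (4 * (p : ℝ))))
            linarith
      _ = Real.exp (-(1 / 4) * rs ((pr 2 w).filter (fun l => l % 12 = 1))) := by
          rw [← Real.exp_sum]
          congr 1
          unfold rs
          rw [mul_sum]
          refine sum_congr rfl fun p hp => ?_
          rw [mem_filter, mem_pr] at hp
          have h2 : (p : ℝ) ≠ 0 := by exact_mod_cast hp.1.2.ne_zero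
          field_simp
      _ ≤ Real.exp (Real.log δ) := by
          apply Real.exp_le_exp.2
          linarith only [hw, h1]
      _ = δ := Real.exp_log hδ

theorem AA_sq_neg {p : ℕ} {A B : ℤ}
    (h : ∀ ι : ZMod p, ι ^ 2 = -1 → IsSquare ((A : ZMod p) + (B : ZMod p) * ι)) :
    ∀ ι : ZMod p, ι ^ 2 = -1 → IsSquare (((-A : ℤ) : ZMod p) + (B : ZMod p) * ι) := by
  intro ι hι
  have h1 := h (-ι) (by rw [← hι]; ring)
  have h2 : IsSquare (-1 : ZMod p) := ⟨ι, by rw [← hι]; ring⟩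
  have h3 := h2.mul h1
  have h4 : (-1 : ZMod p) * ((A : ZMod p) + (B : ZMod p) * (-ι)) =
      ((-A : ℤ) : ZMod p) + (B : ZMod p) * ι := by
    push_cast
    ring
  rwa [h4] at h3

theorem AA_AB {n : ℕ} (hn : Good n) (hv : (n ^ 2 + n + 1).Prime)
    (h4 : (n ^ 2 + n + 1) % 4 = 1) :
    ∃ A B : ℤ, A ^ 2 + B ^ 2 = (n : ℤ) ^ 2 + n + 1 ∧ (2 : ℤ) ∣ B ∧ 0 < A ∧
      ∀ p : ℕ, p.Prime → p % 4 = 1 → p ∣ n → ∀ ι : ZMod p, ι ^ 2 = -1 →
        IsSquare ((A : ZMod p) + (B : ZMod p) * ι) := by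
  obtain ⟨A, B, hAB, hB, hsq⟩ := QL _ hv h4
  have hcast : ((n ^ 2 + n + 1 : ℕ) : ℤ) = (n : ℤ) ^ 2 + n + 1 := by push_cast; ring
  have hsq' : ∀ p : ℕ, p.Prime → p % 4 = 1 → p ∣ n → ∀ ι : ZMod p, ι ^ 2 = -1 →
        IsSquare ((A : ZMod p) + (B : ZMod p) * ι) := by
    intro p hp hp4 hpn
    refine hsq p hp hp4 ?_ (MN hn hv h4 hp hpn)
    have h1 : n ^ 2 + n + 1 - 1 = n * (n + 1) := by
      rw [Nat.add_sub_cancel]; ring
    rw [h1]
    exact hpn.mul_right _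
  have hA0 : A ≠ 0 := by
    rintro rfl
    have h1 : B ^ 2 = ((n ^ 2 + n + 1 : ℕ) : ℤ) := by rw [← hAB]; ring
    have h2 : B.natAbs ^ 2 = n ^ 2 + n + 1 := by
      have h3 := congrArg Int.natAbs h1
      rwa [Int.natAbs_pow, Int.natAbs_natCast] at h3
    rw [← h2] at hv
    exact Nat.Prime.not_prime_pow le_rfl hv
  rw [hcast] at hAB
  rcases lt_or_gt_of_ne hA0 with h | h
  · refine ⟨-A, B, by rw [← hAB]; ring, hB, by omega, ?_⟩
    intro p hp hp4 hpn
    exact AA_sq_neg (hsq' p hp hp4 hpn)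
  · exact ⟨A, B, hAB, hB, h, hsq'⟩

/-- (b) -/
theorem AA_b (η : ℝ) (hη : 0 < η) : ∃ x0 : ℕ, ∀ x : ℕ, x0 ≤ x → ∀ S : Finset ℕ,
    (∀ n ∈ S, n ≤ x ∧ (x : ℝ) ^ (1 / 2 : ℝ) ≤ n ∧ Good n ∧ (n ^ 2 + n + 1).Prime ∧
      (n ^ 2 + n + 1) % 4 = 1) →
    (S.card : ℝ) ≤ η * x / Real.log x := by
  obtain ⟨T, hT, C, hC, H⟩ := I2
  have hT0 : (0 : ℝ) < T := by exact_mod_cast hT
  obtain ⟨Q0, hQ0, hprod⟩ := exists_Q0 (η / (4 * T * C)) (by positivity)
  obtain ⟨z0, hz0, H2⟩ := H Q0 hQ0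
  obtain ⟨x1, hx1⟩ := AA_log_ev (η / (2 * C)) (1 / 8) (by positivity) (by norm_num)
  refine ⟨max x1 (max (2 ^ T) (z0 ^ T)), fun x hx S hS => ?_⟩
  have hxa := hx1 x (le_trans (le_max_left _ _) hx)
  have hxb : 2 ^ T ≤ x := le_trans (le_trans (le_max_left _ _) (le_max_right _ _)) hx
  have hxc : z0 ^ T ≤ x := le_trans (le_trans (le_max_right _ _) (le_max_right _ _)) hx
  obtain ⟨z, hz2, hzx, hxz⟩ := exists_root T x hT hxb
  have hz : z0 ≤ z := by
    by_contra hcon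
    push Not at hcon
    have h1 : (z + 1) ^ T ≤ z0 ^ T := Nat.pow_le_pow_left hcon T
    omega
  have hx2 : 2 ≤ x := by
    calc 2 = 2 ^ 1 := rfl
      _ ≤ 2 ^ T := Nat.pow_le_pow_right (by norm_num) hT
      _ ≤ x := hxb
  have hx0 : (0 : ℝ) < x := by exact_mod_cast (by omega : 0 < x)
  have hx1' : (1 : ℝ) ≤ x := by exact_mod_cast (by omega : 1 ≤ x)
  have hlx : 0 < Real.log x := Real.log_pos (by exact_mod_cast (by omega : 1 < x))
  have hzx' : z ≤ x := (Nat.le_self_pow (by omega) z).trans hzx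
  have h1 := H2 x z hz hzx S ?_
  · have h2 := exp_ll_le hT hz2 hzx hxz 1 zero_le_one
    rw [Real.rpow_one, Real.rpow_one, neg_one_mul] at h2
    have hpr0 : 0 ≤ ∏ p ∈ Q0, (1 - 1 / (4 * (p : ℝ))) := by
      refine prod_nonneg fun p hp => ?_
      have h3 : (2 : ℝ) ≤ p := by exact_mod_cast (hQ0 p hp).1.two_le
      have h4 : 1 / (4 * (p : ℝ)) ≤ 1 := by
        rw [div_le_one (by positivity)]
        linarith only [h3]
      linarith only [h4]
    have h5 : C * (∏ p ∈ Q0, (1 - 1 / (4 * (p : ℝ)))) * x * Real.exp (-(ll z)) ≤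
        η / 2 * (x / Real.log x) := by
      calc C * (∏ p ∈ Q0, (1 - 1 / (4 * (p : ℝ)))) * x * Real.exp (-(ll z))
          ≤ C * (η / (4 * T * C)) * x * (2 * T / Real.log x) := by
            gcongr
        _ = η / 2 * (x / Real.log x) := by
            field_simp
            ring
    have h6 : C * (x : ℝ) ^ (7 / 8 : ℝ) ≤ η / 2 * (x / Real.log x) := by
      rw [← mul_div_assoc, le_div_iff₀ hlx]
      calc C * (x : ℝ) ^ (7 / 8 : ℝ) * Real.log x
          ≤ C * (x : ℝ) ^ (7 / 8 : ℝ) * (η / (2 * C) * (x : ℝ) ^ (1 / 8 : ℝ)) := by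
            gcongr
        _ = η / 2 * ((x : ℝ) ^ (7 / 8 : ℝ) * (x : ℝ) ^ (1 / 8 : ℝ)) := by
            field_simp
        _ = η / 2 * x := by
            rw [← Real.rpow_add hx0]
            norm_num
    calc (S.card : ℝ) ≤ _ := h1
      _ ≤ η / 2 * (x / Real.log x) + η / 2 * (x / Real.log x) := add_le_add h5 h6
      _ = η * x / Real.log x := by ring
  · intro n hn
    obtain ⟨hnx, hns, hng, hnv, hn4⟩ := hS n hn
    obtain ⟨A, B, hAB, hB, hA, hsq⟩ := AA_AB hng hnv hn4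
    refine ⟨by have := hng.1; omega, hnx, A, B, hAB, hB, hA, ?_, ?_⟩
    · intro p hp _ hpv
      rw [mem_pr] at hp
      have h3 : p = n ^ 2 + n + 1 := (Nat.prime_dvd_prime_iff_eq hp.2 hnv).1 hpv
      have h4 : x ≤ n ^ 2 := by
        have h5 : ((x : ℝ) ^ (1 / 2 : ℝ)) ^ 2 ≤ (n : ℝ) ^ 2 :=
          pow_le_pow_left₀ (by positivity) hns 2
        rw [← Real.rpow_natCast, ← Real.rpow_mul hx0.le] at h5
        norm_num at h5
        exact_mod_cast h5
      omega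
    · intro p hp hpn
      obtain ⟨h3, h4⟩ := hQ0 p hp
      exact hsq p h3 (by omega) hpn

/-- (a) -/
theorem AA_a (η : ℝ) (hη : 0 < η) : ∃ ε : ℝ, 0 < ε ∧ ε ≤ 1 / 8 ∧ ∃ x0 : ℕ, ∀ x : ℕ, x0 ≤ x →
    ∀ S : Finset ℕ,
    (∀ n ∈ S, 1 ≤ n ∧ n ≤ x ∧ ∃ u w : ℕ, u.Prime ∧ w.Prime ∧ u * w = n ^ 2 + n + 1 ∧
      (x : ℝ) ^ (1 - ε) < u ∧ u ≤ w) →
    (S.card : ℝ) ≤ η * x / Real.log x := by
  obtain ⟨T0, hT0, C, hC, H⟩ := I1
  have hT : (0 : ℝ) < T0 := by exact_mod_cast hT0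
  set K : ℝ := C * (4 * T0) ^ 2 with hK
  have hK0 : 0 < K := by positivity
  set ε : ℝ := min (1 / 8) (η / (4 * K)) with hε
  have hε0 : 0 < ε := lt_min (by norm_num) (by positivity)
  have hε8 : ε ≤ 1 / 8 := min_le_left _ _
  have hεK : K * (2 * ε) ≤ η / 2 := by
    have h1 : ε ≤ η / (4 * K) := min_le_right _ _
    calc K * (2 * ε) ≤ K * (2 * (η / (4 * K))) := by gcongr
      _ = η / 2 := by field_simp; ring
  obtain ⟨x1, hx1⟩ := AA_log_ge (8 * K / η + 4)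
  refine ⟨ε, hε0, hε8, max x1 (max 16 (2 ^ (2 * T0))), fun x hx S hS => ?_⟩
  have hxa := hx1 x (le_trans (le_max_left _ _) hx)
  have hxb : 16 ≤ x := le_trans (le_trans (le_max_left _ _) (le_max_right _ _)) hx
  have hxc : 2 ^ (2 * T0) ≤ x := le_trans (le_trans (le_max_right _ _) (le_max_right _ _)) hx
  have hx0 : (0 : ℝ) < x := by exact_mod_cast (by omega : 0 < x)
  have hx16 : (16 : ℝ) ≤ x := by exact_mod_cast hxb
  have hx1' : (1 : ℝ) ≤ x := by linarith only [hx16]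
  have hlx : 0 < Real.log x := Real.log_pos (by linarith only [hx16])
  obtain ⟨z, hz2, hzx, hxz⟩ := exists_root (2 * T0) x (by omega) hxc
  set Y : ℕ := ⌊(x : ℝ) ^ (1 - ε)⌋₊ with hY
  have hYle : (Y : ℝ) ≤ (x : ℝ) ^ (1 - ε) := Nat.floor_le (by positivity)
  have hYgt : (x : ℝ) ^ (1 - ε) < Y + 1 := Nat.lt_floor_add_one _
  -- lower bounds
  have hxe : (x : ℝ) ^ (7 / 8 : ℝ) ≤ (x : ℝ) ^ (1 - ε) :=
    Real.rpow_le_rpow_of_exponent_le hx1' (by linarith only [hε8])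
  have hx78 : 2 * (x : ℝ) ^ (1 / 2 : ℝ) ≤ (x : ℝ) ^ (7 / 8 : ℝ) := by
    have h1 : (x : ℝ) ^ (7 / 8 : ℝ) = (x : ℝ) ^ (3 / 8 : ℝ) * (x : ℝ) ^ (1 / 2 : ℝ) := by
      rw [← Real.rpow_add hx0]; norm_num
    have h2 : (2 : ℝ) ≤ (x : ℝ) ^ (3 / 8 : ℝ) := by
      calc (2 : ℝ) = (16 : ℝ) ^ (1 / 4 : ℝ) := by
            rw [show (16 : ℝ) = 2 ^ (4 : ℝ) by norm_num, ← Real.rpow_mul (by norm_num)]
            norm_num
        _ ≤ (x : ℝ) ^ (1 / 4 : ℝ) := Real.rpow_le_rpow (by norm_num) hx16 (by norm_num)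
        _ ≤ (x : ℝ) ^ (3 / 8 : ℝ) := Real.rpow_le_rpow_of_exponent_le hx1' (by norm_num)
    rw [h1]
    gcongr
  have hx12 : (4 : ℝ) ≤ (x : ℝ) ^ (1 / 2 : ℝ) := by
    calc (4 : ℝ) = (16 : ℝ) ^ (1 / 2 : ℝ) := by
          rw [show (16 : ℝ) = 4 ^ (2 : ℝ) by norm_num, ← Real.rpow_mul (by norm_num)]
          norm_num
      _ ≤ (x : ℝ) ^ (1 / 2 : ℝ) := Real.rpow_le_rpow (by norm_num) hx16 (by norm_num)
  have hYx : (x : ℝ) ^ (1 / 2 : ℝ) ≤ Y := by linarith only [hε8, hYgt, hxe, hx78, hx12]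
  have hY1 : (1 : ℝ) ≤ Y := by linarith only [hYgt, hxe, hx78, hx12]
  have hzY : z ^ T0 ≤ Y := by
    have h1 : ((z : ℝ) ^ T0) ^ 2 ≤ x := by
      rw [← pow_mul, mul_comm T0 2]
      exact_mod_cast hzx
    have h2 : (z : ℝ) ^ T0 ≤ (x : ℝ) ^ (1 / 2 : ℝ) := by
      rw [← Real.sqrt_eq_rpow]
      exact Real.le_sqrt_of_sq_le h1
    have h3 : ((z ^ T0 : ℕ) : ℝ) ≤ Y := by
      push_cast
      exact h2.trans hYx
    exact_mod_cast h3
  -- the number of dyadic steps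
  set J : ℕ := ⌈Real.log ((x : ℝ) / Y) / Real.log 2⌉₊ with hJ
  have hl2 : 0 < Real.log 2 := Real.log_pos (by norm_num)
  have hl2' := Real.log_two_gt_d9
  have hJ1 : x ≤ Y * 2 ^ J := by
    have h1 : Real.log ((x : ℝ) / Y) ≤ J * Real.log 2 := by
      have := Nat.le_ceil (Real.log ((x : ℝ) / Y) / Real.log 2)
      rwa [div_le_iff₀ hl2] at this
    have hYpos : (0 : ℝ) < Y := by linarith only [hε8, hYgt, hxe, hx78, hx12]
    have h2 : (x : ℝ) / Y ≤ 2 ^ J := by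
      rw [← Real.log_pow] at h1
      exact (Real.log_le_log_iff (by positivity) (by positivity)).1 h1
    rw [div_le_iff₀ hYpos] at h2
    have h3 : (x : ℝ) ≤ ((Y * 2 ^ J : ℕ) : ℝ) := by
      push_cast
      linarith only [h2]
    exact_mod_cast h3
  have hJ2 : (J : ℝ) + 1 ≤ 2 * ε * Real.log x + 4 := by
    have hYpos : (0 : ℝ) < Y := by linarith only [hYgt, hxe, hx78, hx12]
    have hxY : (x : ℝ) ≤ 2 * Y * (x : ℝ) ^ ε := by
      have h1 : (x : ℝ) ^ (1 - ε) ≤ 2 * Y := by linarith only [hε0, hε8, hYgt, hxe, hx78, hx12]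
      calc (x : ℝ) = (x : ℝ) ^ (1 - ε) * (x : ℝ) ^ ε := by
            rw [← Real.rpow_add hx0]; simp
        _ ≤ 2 * Y * (x : ℝ) ^ ε := by gcongr
    have h2 : Real.log ((x : ℝ) / Y) ≤ Real.log 2 + ε * Real.log x := by
      rw [← Real.log_rpow hx0, ← Real.log_mul (by norm_num) (by positivity)]
      refine Real.log_le_log (by positivity) ?_
      rw [div_le_iff₀ hYpos]
      linarith only [hxY]
    have h0 : 0 ≤ Real.log ((x : ℝ) / Y) := by
      refine Real.log_nonneg ?_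
      rw [le_div_iff₀ hYpos, one_mul]
      refine hYle.trans ?_
      calc (x : ℝ) ^ (1 - ε) ≤ (x : ℝ) ^ (1 : ℝ) :=
            Real.rpow_le_rpow_of_exponent_le hx1' (by linarith only [hε0])
        _ = x := Real.rpow_one _
    have h3 : (J : ℝ) < Real.log ((x : ℝ) / Y) / Real.log 2 + 1 :=
      Nat.ceil_lt_add_one (div_nonneg h0 hl2.le)
    have h4 : Real.log ((x : ℝ) / Y) / Real.log 2 ≤ 1 + 2 * ε * Real.log x := by
      rw [div_le_iff₀ hl2]
      have h5 : 0 ≤ ε * Real.log x := by positivity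
      nlinarith only [hl2, hl2', h2, h5]
    linarith only [hε8, h3, h4]
  have h1 := H x Y J z hz2 hzY hJ1 S ?_
  · have h2 := exp_ll_le (by omega : 1 ≤ 2 * T0) hz2 hzx hxz 2 (by norm_num)
    have h3 : Real.exp (-(2 * ll z)) ≤ (4 * T0) ^ 2 / Real.log x ^ 2 := by
      have h4 : -(2 * ll z) = -2 * ll z := by ring
      rw [h4]
      refine h2.trans (le_of_eq ?_)
      push_cast
      rw [show (2 : ℝ) = ((2 : ℕ) : ℝ) by norm_num, Real.rpow_natCast, Real.rpow_natCast]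
      congr 1
      push_cast
      ring
    have h5 : K * 8 ≤ η * (Real.log x - 4) := by
      have h6 : 8 * K / η ≤ Real.log x - 4 := by linarith only [hxa]
      rw [div_le_iff₀ hη] at h6
      linarith only [h6]
    calc (S.card : ℝ) ≤ C * (J + 1) * x * Real.exp (-(2 * ll z)) := h1
      _ ≤ C * (2 * ε * Real.log x + 4) * x * ((4 * T0) ^ 2 / Real.log x ^ 2) := by
          gcongr
      _ = (K * (2 * ε) * Real.log x + 4 * K) * (x / Real.log x ^ 2) := by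
          rw [hK]; ring
      _ ≤ (η * Real.log x) * (x / Real.log x ^ 2) := by
          refine mul_le_mul_of_nonneg_right ?_ (by positivity)
          nlinarith only [hη, h5, mul_le_mul_of_nonneg_right hεK hlx.le]
      _ = η * x / Real.log x := by
          field_simp
  · intro n hn
    obtain ⟨hn1, hnx, u, w, hu, hw, huw, hux, huw'⟩ := hS n hn
    have hYu : Y < u := by
      have : (Y : ℝ) < u := lt_of_le_of_lt hYle hux
      exact_mod_cast this
    refine ⟨hn1, hnx, u, w, huw, hYu, huw', ?_⟩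
    intro p hp _ hpd
    rw [mem_pr] at hp
    have hzz : z ≤ z ^ T0 := Nat.le_self_pow (by omega) z
    rcases (Nat.Prime.dvd_mul hp.2).1 hpd with h | h
    · have := (Nat.prime_dvd_prime_iff_eq hp.2 hu).1 h
      omega
    · have := (Nat.prime_dvd_prime_iff_eq hp.2 hw).1 h
      omega

/-- two prime factors -/
theorem AA_two {v : ℕ} {t : ℝ} (hv1 : 1 < v) (hvp : ¬ v.Prime) (ht : 0 < t)
    (hq : ∀ q : ℕ, q.Prime → q ∣ v → t < q) (hvt : (v : ℝ) ≤ t ^ 3) :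
    ∃ u w : ℕ, u.Prime ∧ w.Prime ∧ u * w = v ∧ t < u ∧ u ≤ w := by
  have hu : (Nat.minFac v).Prime := Nat.minFac_prime (by omega)
  have hud : Nat.minFac v ∣ v := Nat.minFac_dvd v
  obtain ⟨w, hw⟩ := hud
  have hw0 : w ≠ 0 := by
    rintro rfl
    omega
  have hw1 : w ≠ 1 := by
    rintro rfl
    rw [mul_one] at hw
    rw [hw] at hvp
    exact hvp hu
  have hw2 : 2 ≤ w := by omega
  have hwd : w ∣ v := ⟨Nat.minFac v, by rw [mul_comm]; exact hw⟩
  have hle : Nat.minFac v ≤ w := Nat.minFac_le_of_dvd hw2 hwd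
  have htu := hq _ hu (Nat.minFac_dvd v)
  refine ⟨Nat.minFac v, w, hu, ?_, hw.symm, htu, hle⟩
  by_contra hwp
  have ha : (Nat.minFac w).Prime := Nat.minFac_prime hw1
  obtain ⟨b, hb⟩ := Nat.minFac_dvd w
  have hb0 : b ≠ 0 := by
    rintro rfl
    omega
  have hb1 : b ≠ 1 := by
    rintro rfl
    rw [mul_one] at hb
    rw [hb] at hwp
    exact hwp ha
  have hbb : (Nat.minFac b).Prime := Nat.minFac_prime hb1
  have hbw : b ∣ w := ⟨Nat.minFac w, by rw [mul_comm]; exact hb⟩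
  have h1 := hq _ ha ((Nat.minFac_dvd w).trans hwd)
  have h2 := hq _ hbb (((Nat.minFac_dvd b).trans hbw).trans hwd)
  have h3 : ((Nat.minFac b : ℕ) : ℝ) ≤ b := by
    exact_mod_cast Nat.minFac_le (by omega)
  have h4 : t < b := lt_of_lt_of_le h2 h3
  have h5 : (v : ℝ) = (Nat.minFac v : ℝ) * ((Nat.minFac w : ℝ) * b) := by
    have : v = Nat.minFac v * (Nat.minFac w * b) := by
      rw [← hb]; exact hw
    exact_mod_cast this
  have h6 : t * t < (Nat.minFac w : ℝ) * b := by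
    nlinarith only [ht, h1, h2, h3]
  have h7 : t * (t * t) < (Nat.minFac v : ℝ) * ((Nat.minFac w : ℝ) * b) := by
    have h8 : 0 < t * t := by positivity
    nlinarith only [ht, htu, h6]
  rw [← h5] at h7
  have h9 : t ^ 3 = t * (t * t) := by ring
  linarith

open Classical in
theorem almost_all (η : ℝ) (hη : 0 < η) : ∃ x0 : ℕ, ∀ x : ℕ, x0 ≤ x →
    (((Icc 2 x).filter (fun n => MG n ∧ ¬ n.Prime)).card : ℝ) ≤ η * x / Real.log x := by
  obtain ⟨ε, hε0, hε8, xa, Ha⟩ := AA_a (η / 4) (by positivity)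
  obtain ⟨xb, Hb⟩ := AA_b (η / 4) (by positivity)
  obtain ⟨C, hC, Hs⟩ := structure_main ε hε0
  obtain ⟨x1, hx1⟩ := AA_log_ge (max ((4 * C / η) ^ 4) 4)
  obtain ⟨x2, hx2⟩ := AA_log_ev (η / 12) (1 / 2) (by positivity) (by norm_num)
  refine ⟨max xa (max xb (max x1 (max x2 16))), fun x hx => ?_⟩
  simp only [max_le_iff] at hx
  obtain ⟨hxa, hxb, hxl, hxr, hx16⟩ := hx
  have hlog := hx1 x hxl
  have hlog2 := hx2 x hxr
  have hx0 : (0 : ℝ) < x := by exact_mod_cast (by omega : 0 < x)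
  have hx16' : (16 : ℝ) ≤ x := by exact_mod_cast hx16
  have hx1' : (1 : ℝ) ≤ x := by linarith only [hx16']
  have hlx : 0 < Real.log x := Real.log_pos (by linarith only [hx16'])
  set G := (Icc 2 x).filter (fun n => MG n ∧ ¬ n.Prime) with hG
  set G1 := (Icc 2 x).filter (fun n => MG n ∧ ¬ n.Prime ∧ (n % 4 = 1 ∨ n % 4 = 2 ∨
      ∃ q : ℕ, q.Prime ∧ q ∣ n ^ 2 + n + 1 ∧ (q : ℝ) ≤ (x : ℝ) ^ (1 - ε))) with hG1
  set GQ := G.filter (fun n => IsSquare n) with hGQ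
  set GS := (Icc 1 (Nat.sqrt x)) with hGS
  set R := G.filter (fun n => n ∉ G1 ∧ ¬ IsSquare n ∧ n ∉ GS) with hR
  set Rp := R.filter (fun n => (n ^ 2 + n + 1).Prime) with hRp
  set Rc := R.filter (fun n => ¬ (n ^ 2 + n + 1).Prime) with hRc
  have hcov : G ⊆ G1 ∪ (GQ ∪ (GS ∪ (Rp ∪ Rc))) := by
    intro n hn
    simp only [mem_union]
    by_cases h1 : n ∈ G1
    · exact Or.inl h1
    by_cases h2 : IsSquare n
    · exact Or.inr (Or.inl (mem_filter.2 ⟨hn, h2⟩))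
    by_cases h3 : n ∈ GS
    · exact Or.inr (Or.inr (Or.inl h3))
    have h4 : n ∈ R := mem_filter.2 ⟨hn, h1, h2, h3⟩
    by_cases h5 : (n ^ 2 + n + 1).Prime
    · exact Or.inr (Or.inr (Or.inr (Or.inl (mem_filter.2 ⟨h4, h5⟩))))
    · exact Or.inr (Or.inr (Or.inr (Or.inr (mem_filter.2 ⟨h4, h5⟩))))
  have hc : (G.card : ℝ) ≤ G1.card + (GQ.card + (GS.card + (Rp.card + Rc.card))) := by
    have h1 : G.card ≤ G1.card + (GQ.card + (GS.card + (Rp.card + Rc.card))) := by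
      refine (card_le_card hcov).trans ((card_union_le _ _).trans ?_)
      apply Nat.add_le_add_left
      refine (card_union_le _ _).trans ?_
      apply Nat.add_le_add_left
      refine (card_union_le _ _).trans ?_
      apply Nat.add_le_add_left
      exact card_union_le _ _
    exact_mod_cast h1
  -- the exceptional set of the structure theorem
  have e1 : (G1.card : ℝ) ≤ η / 4 * (x / Real.log x) := by
    refine (Hs x (by omega)).trans ?_
    have h1 : 4 * C / η ≤ Real.log x ^ (1 / 4 : ℝ) := by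
      calc 4 * C / η = ((4 * C / η) ^ 4) ^ (1 / 4 : ℝ) := by
            rw [← Real.rpow_natCast, ← Real.rpow_mul (by positivity)]
            norm_num
        _ ≤ Real.log x ^ (1 / 4 : ℝ) :=
            Real.rpow_le_rpow (by positivity) ((le_max_left _ _).trans hlog) (by norm_num)
    have h2 : Real.log x ^ (5 / 4 : ℝ) = Real.log x ^ (1 / 4 : ℝ) * Real.log x := by
      rw [show (5 / 4 : ℝ) = 1 / 4 + 1 by norm_num, Real.rpow_add hlx, Real.rpow_one]
    have h3 : 0 < Real.log x ^ (1 / 4 : ℝ) := Real.rpow_pos_of_pos hlx _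
    rw [h2, ← mul_div_assoc, div_le_div_iff₀ (by positivity) hlx]
    rw [div_le_iff₀ hη] at h1
    have h4 : 0 < (x : ℝ) * Real.log x := by positivity
    nlinarith only [h1, h4]
  -- squares and small numbers
  have hsqrt : Real.sqrt x * Real.log x ≤ η / 12 * x := by
    have h1 : Real.sqrt x = (x : ℝ) ^ (1 / 2 : ℝ) := Real.sqrt_eq_rpow _
    rw [← h1] at hlog2
    calc Real.sqrt x * Real.log x ≤ Real.sqrt x * (η / 12 * Real.sqrt x) :=
          mul_le_mul_of_nonneg_left hlog2 (Real.sqrt_nonneg _)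
      _ = η / 12 * (Real.sqrt x * Real.sqrt x) := by ring
      _ = η / 12 * x := by rw [Real.mul_self_sqrt hx0.le]
  have hsqrt2 : Real.sqrt x ≤ η / 12 * (x / Real.log x) := by
    rw [← mul_div_assoc, le_div_iff₀ hlx]
    exact hsqrt
  have e2 : (GQ.card : ℝ) ≤ η / 12 * (x / Real.log x) := by
    have h1 := card_squares x GQ (fun n hn => by
      rw [hGQ, mem_filter, hG, mem_filter, mem_Icc] at hn
      exact ⟨by omega, hn.1.1.2, hn.2⟩)
    have h2 : (GQ.card : ℝ) ≤ Nat.sqrt x := by exact_mod_cast h1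
    exact (h2.trans Real.nat_sqrt_le_real_sqrt).trans hsqrt2
  have e3 : (GS.card : ℝ) ≤ η / 12 * (x / Real.log x) := by
    have h1 : GS.card = Nat.sqrt x := by
      rw [hGS, Nat.card_Icc]; omega
    rw [h1]
    exact Real.nat_sqrt_le_real_sqrt.trans hsqrt2
  -- facts on the remaining set
  have hRf : ∀ n ∈ R, 2 ≤ n ∧ n ≤ x ∧ MG n ∧ ¬ IsSquare n ∧ Nat.sqrt x < n ∧
      (n ^ 2 + n + 1) % 4 = 1 ∧
      ∀ q : ℕ, q.Prime → q ∣ n ^ 2 + n + 1 → (x : ℝ) ^ (1 - ε) < q := by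
    intro n hn
    rw [hR, mem_filter, hG, mem_filter, mem_Icc] at hn
    obtain ⟨⟨⟨h1, h2⟩, h3, h4⟩, h5, h6, h7⟩ := hn
    have h8 : ¬ (n % 4 = 1 ∨ n % 4 = 2 ∨
      ∃ q : ℕ, q.Prime ∧ q ∣ n ^ 2 + n + 1 ∧ (q : ℝ) ≤ (x : ℝ) ^ (1 - ε)) := by
      intro hcon
      exact h5 (mem_filter.2 ⟨mem_Icc.2 ⟨h1, h2⟩, h3, h4, hcon⟩)
    push Not at h8
    refine ⟨h1, h2, h3, h6, ?_, ?_, h8.2.2⟩
    · by_contra hcon
      push Not at hcon
      exact h7 (mem_Icc.2 ⟨by omega, hcon⟩)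
    · have h9 : n % 4 = 0 ∨ n % 4 = 3 := by omega
      rcases h9 with h9 | h9
      · simp [Nat.add_mod, Nat.pow_mod, h9]
      · simp [Nat.add_mod, Nat.pow_mod, h9]
  have e4 : (Rp.card : ℝ) ≤ η / 4 * (x / Real.log x) := by
    have h1 := Hb x hxb Rp (fun n hn => by
      rw [hRp, mem_filter] at hn
      obtain ⟨h1, h2, h3, h4, h5, h6, h7⟩ := hRf n hn.1
      refine ⟨h2, ?_, ⟨h1, h3, h4⟩, hn.2, h6⟩
      rw [← Real.sqrt_eq_rpow]
      have h8 : x < n * n := Nat.sqrt_lt.1 h5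
      have h9 : (x : ℝ) ≤ (n : ℝ) ^ 2 := by
        have : (x : ℝ) < ((n * n : ℕ) : ℝ) := by exact_mod_cast h8
        push_cast at this
        nlinarith only [this]
      exact Real.sqrt_le_iff.2 ⟨by positivity, h9⟩)
    calc (Rp.card : ℝ) ≤ η / 4 * x / Real.log x := h1
      _ = _ := by ring
  have e5 : (Rc.card : ℝ) ≤ η / 4 * (x / Real.log x) := by
    have h1 := Ha x hxa Rc (fun n hn => by
      rw [hRc, mem_filter] at hn
      obtain ⟨h1, h2, h3, h4, h5, h6, h7⟩ := hRf n hn.1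
      refine ⟨by omega, h2, ?_⟩
      have h16 : ((n ^ 2 + n + 1 : ℕ) : ℝ) ≤ ((x : ℝ) ^ (1 - ε)) ^ 3 := by
        have h8 : ((x : ℝ) ^ (1 - ε)) ^ 3 = (x : ℝ) ^ ((1 - ε) * 3) := by
          rw [← Real.rpow_natCast, ← Real.rpow_mul hx0.le, Nat.cast_ofNat]
        have h9 : (x : ℝ) ^ (21 / 8 : ℝ) ≤ (x : ℝ) ^ ((1 - ε) * 3) :=
          Real.rpow_le_rpow_of_exponent_le hx1' (by linarith only [hε8])
        have h10 : (x : ℝ) ^ (21 / 8 : ℝ) = (x : ℝ) ^ (5 / 8 : ℝ) * (x : ℝ) ^ 2 := by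
          rw [← Real.rpow_natCast (x : ℝ) 2, ← Real.rpow_add hx0]
          norm_num
        have h11 : (4 : ℝ) ≤ (x : ℝ) ^ (5 / 8 : ℝ) := by
          calc (4 : ℝ) = (16 : ℝ) ^ (1 / 2 : ℝ) := by
                rw [show (16 : ℝ) = 4 ^ (2 : ℝ) by norm_num, ← Real.rpow_mul (by norm_num)]
                norm_num
            _ ≤ (x : ℝ) ^ (1 / 2 : ℝ) := Real.rpow_le_rpow (by norm_num) hx16' (by norm_num)
            _ ≤ (x : ℝ) ^ (5 / 8 : ℝ) := Real.rpow_le_rpow_of_exponent_le hx1' (by norm_num)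
        have h12 : ((n ^ 2 + n + 1 : ℕ) : ℝ) ≤ 3 * (x : ℝ) ^ 2 := by
          have h13 : (n : ℝ) ≤ x := by exact_mod_cast h2
          have h14 : (0 : ℝ) ≤ n := Nat.cast_nonneg _
          push_cast
          nlinarith only [hx16', h13]
        rw [h8]
        refine h12.trans (le_trans ?_ h9)
        rw [h10]
        have h15 : (0 : ℝ) ≤ (x : ℝ) ^ 2 := by positivity
        nlinarith only [h11]
      exact AA_two (v := n ^ 2 + n + 1)
        (t := (x : ℝ) ^ (1 - ε)) (by nlinarith only [h1]) hn.2 (by positivity) h7 h16)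
    calc (Rc.card : ℝ) ≤ η / 4 * x / Real.log x := h1
      _ = _ := by ring
  have hxl0 : 0 ≤ (x : ℝ) / Real.log x := by positivity
  calc (G.card : ℝ) ≤ _ := hc
    _ ≤ η * (x / Real.log x) := by nlinarith only [e1, e2, e3, e4, e5]
    _ = η * x / Real.log x := by ring

end Pool.Agent.H37.PW
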