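import Pool.Agent.H37.PW.AA
import Pool.Agent.H37.PV.Pow

/-!
PW Fin2: Theorem A, all powers with exponent not divisible by 3.
-/

set_option autoImplicit false

namespace Pool.Agent.H37.PW

open Finset Pool.Agent.H37.PPC Pool.Agent.H37.PPD Pool.Agent.H37.PPE Pool.Agent.H49.PPR Pool.Agent.H37.PV

open Classical in
theorem perfect_powers : ∃ C : ℝ, 0 < C ∧ ∀ x : ℕ, 2 ≤ x →
    (((Icc 2 x).filter (fun m => Bad m ∧ ¬ m.Prime)).card : ℝ) ≤
      C * x / Real.log x ^ (5 / 4 : ℝ) := by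
  obtain ⟨C, hC, H⟩ := power_saving
  refine ⟨C + 6, by positivity, fun x hx => ?_⟩
  have hx2 : (2 : ℝ) ≤ x := by exact_mod_cast hx
  have hx0 : (0 : ℝ) < x := by linarith
  have hlx : 0 < Real.log x := Real.log_pos (by linarith)
  have hlp : 0 < Real.log x ^ (5 / 4 : ℝ) := Real.rpow_pos_of_pos hlx _
  have hsub : (Icc 2 x).filter (fun m => Bad m ∧ ¬ m.Prime) ⊆
      (Icc 2 x).filter (fun m => MG m ∧ ¬ m.Prime) ∪ (Icc 1 (Nat.sqrt x)).image (fun t => t * t) := by
    intro m hm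
    rw [mem_filter, mem_Icc] at hm
    rw [mem_union, mem_filter, mem_Icc, mem_image]
    by_cases hs : IsSquare m
    · right
      obtain ⟨t, ht⟩ := hs
      refine ⟨t, ?_, ht.symm⟩
      rw [mem_Icc]
      constructor
      · rcases Nat.eq_zero_or_pos t with h | h
        · rw [h] at ht
          omega
        · exact h
      · rw [Nat.le_sqrt]
        omega
    · left
      exact ⟨hm.1, mg_of_bad hm.1.1 hs hm.2.1, hm.2.2⟩
  have h1 : (((Icc 2 x).filter (fun m => Bad m ∧ ¬ m.Prime)).card : ℝ) ≤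
      ((Icc 2 x).filter (fun m => MG m ∧ ¬ m.Prime)).card + (Nat.sqrt x : ℝ) := by
    have h2 := (card_le_card hsub).trans (card_union_le _ _)
    have h3 : ((Icc 1 (Nat.sqrt x)).image (fun t => t * t)).card ≤ Nat.sqrt x :=
      card_image_le.trans (by rw [Nat.card_Icc]; omega)
    exact_mod_cast h2.trans (Nat.add_le_add_left h3 _)
  have hsq : (Nat.sqrt x : ℝ) ≤ 6 * x / Real.log x ^ (5 / 4 : ℝ) := by
    have h2 : (Nat.sqrt x : ℝ) ≤ Real.sqrt x := Real.nat_sqrt_le_real_sqrt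
    have h3 : Real.log x ^ (5 / 4 : ℝ) ≤ 6 * Real.sqrt x := by
      rw [Real.sqrt_eq_rpow]
      exact rpow_five (by linarith)
    calc (Nat.sqrt x : ℝ) ≤ Real.sqrt x := h2
      _ ≤ 6 * x / Real.log x ^ (5 / 4 : ℝ) := by
        rw [le_div_iff₀ hlp]
        calc Real.sqrt x * Real.log x ^ (5 / 4 : ℝ) ≤ Real.sqrt x * (6 * Real.sqrt x) :=
              mul_le_mul_of_nonneg_left h3 (Real.sqrt_nonneg _)
          _ = 6 * (Real.sqrt x * Real.sqrt x) := by ring
          _ = 6 * x := by rw [Real.mul_self_sqrt hx0.le]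
  calc (((Icc 2 x).filter (fun m => Bad m ∧ ¬ m.Prime)).card : ℝ)
      ≤ C * x / Real.log x ^ (5 / 4 : ℝ) + 6 * x / Real.log x ^ (5 / 4 : ℝ) :=
        h1.trans (add_le_add (H x hx) hsq)
    _ = (C + 6) * x / Real.log x ^ (5 / 4 : ℝ) := by ring

end Pool.Agent.H37.PW
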